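import Pool.Agent.H27.ZF.TA

/-!
Board zf (MP_52e316_nt), row NZR: no zeros, from the product of the inverses of the local factors.
-/

set_option autoImplicit false

namespace Pool.Agent.H86.ZF

open Pool.Agent.H27.ZF

theorem sq_mono {lam : ℕ → ℂ} {Q A A' : ℝ} (hA : A ≤ A') (h : Sq lam Q A) : Sq lam Q A' := by
  intro r hr
  exact (h r hr).trans (mul_le_mul_of_nonneg_right hA (by positivity))

theorem dp_mono {m : ℕ} {lam : ℕ → ℂ} {Q z0 z A A' : ℝ} {s : ℂ} (hA : A ≤ A')
    (h : Dp m lam Q z0 z A s) : Dp m lam Q z0 z A' s := by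
  intro j k r hj hk hkm hj2 hr
  exact (h j k r hj hk hkm hj2 hr).trans (mul_le_mul_of_nonneg_right hA (by positivity))

theorem qv_diff (m : ℕ) (q : ℕ → ℂ) {p : ℕ} (hp : p.Prime) :
    Differentiable ℂ (fun s : ℂ => qv m q ((p : ℂ) ^ (-s))) := by
  have hp0 : (p : ℂ) ≠ 0 := by exact_mod_cast hp.ne_zero
  unfold qv
  have h1 : Differentiable ℂ (fun s : ℂ => (p : ℂ) ^ (-s)) := by
    intro s
    exact (differentiableAt_id.neg).const_cpow (Or.inl hp0)
  fun_prop

theorem pr_diff (m : ℕ) (q : ℕ → ℕ → ℂ) (S : Finset ℕ) (hS : ∀ p ∈ S, p.Prime) :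
    Differentiable ℂ (fun s : ℂ => ∏ p ∈ S, qv m (q p) ((p : ℂ) ^ (-s))) := by
  intro s
  exact DifferentiableAt.fun_finsetProd (fun p hp => (qv_diff m (q p) (hS p hp)) s)

theorem summ {m : ℕ} {C0 : ℝ} {lam : ℕ → ℂ} (h : ∀ n : ℕ, 1 ≤ n → ‖lam n‖ ≤ C0 * (n : ℝ) ^ m)
    {x : ℝ} (hx : (m : ℝ) + 4 ≤ x) :
    Summable (fun n : ℕ => if 1 ≤ n then ‖lam n‖ * (n : ℝ) ^ (-x) else 0) := by
  have h1 : Summable (fun n : ℕ => C0 * (n : ℝ) ^ (-(2 : ℝ))) :=
    (Real.summable_nat_rpow.2 (by norm_num)).mul_left C0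
  refine Summable.of_nonneg_of_le (fun n => ?_) (fun n => ?_) h1
  · split_ifs
    · positivity
    · exact le_refl _
  · have hC0 : 0 ≤ C0 := by
      have := (norm_nonneg _).trans (h 1 (le_refl 1))
      simpa using this
    split_ifs with hn
    · have hn1 : (1 : ℝ) ≤ n := by exact_mod_cast hn
      have hn0 : (0 : ℝ) < n := by linarith
      calc ‖lam n‖ * (n : ℝ) ^ (-x) ≤ (C0 * (n : ℝ) ^ m) * (n : ℝ) ^ (-x) :=
            mul_le_mul_of_nonneg_right (h n hn) (by positivity)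
        _ = C0 * (n : ℝ) ^ ((m : ℝ) - x) := by
            rw [mul_assoc, ← Real.rpow_natCast (n : ℝ) m, ← Real.rpow_add hn0]
            ring_nf
        _ ≤ C0 * (n : ℝ) ^ (-(2 : ℝ)) := by
            refine mul_le_mul_of_nonneg_left ?_ hC0
            exact Real.rpow_le_rpow_of_exponent_le hn1 (by linarith)
    · positivity

theorem pf_NZR (hPRD : T_PRD) (hHTC : T_HTC) (hEPR : T_EPR) (hTAI : T_TAI) : T_NZR := by
  intro m d C0 hm hd hd2 hC0
  have hm1 : (1 : ℝ) ≤ m := by exact_mod_cast hm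
  obtain ⟨w, hw0, hw1, hHT⟩ := hHTC 1 ((m : ℝ) + 5 - 1 / 2 - d) ((m : ℝ) + 5 - 1 / 2 - d / 2)
    one_pos (by linarith) (by linarith)
  obtain ⟨c1, hc1, hPR⟩ := hPRD m (d / 2) C0 hm (by linarith) (by linarith) hC0
  obtain ⟨C, hC, hTA⟩ := hTAI m C0 hC0
  have hη : 0 < w / (32 * m) := by positivity
  obtain ⟨k0, Q1, hk0, hQ1, hPR⟩ := hPR (w / (32 * m)) hη
  set η : ℝ := w / (32 * m) with hηd
  have hcc : 0 < min c1 η := lt_min hc1 hη
  have h4C : (1 : ℝ) ≤ 4 * C := by linarith
  have he : (0 : ℝ) < w / (8 * m) := by positivity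
  refine ⟨min c1 η, k0, 2 * m + 10, max Q1 ((4 * C) ^ (8 * m / w) + 1), hcc, hk0, by linarith,
    le_max_of_le_left hQ1, ?_⟩
  intro lam q L Q t hQ hE hlam hL hLs hSq hyp s hs hst
  set c : ℝ := min c1 η with hcd
  have hQ1' : Q1 ≤ Q := (le_max_left _ _).trans hQ
  have hQ2 : (4 * C) ^ (8 * m / w) < Q := by
    have := (le_max_right Q1 ((4 * C) ^ (8 * m / w) + 1)).trans hQ
    linarith
  have hQge1 : 1 ≤ Q := hQ1.trans hQ1'
  have hQ0 : 0 < Q := by linarith
  -- 4 C < Q ^ (w / (8 m))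
  have hbig : 4 * C < Q ^ (w / (8 * m)) := by
    have h1 : ((4 * C) ^ (8 * m / w)) ^ (w / (8 * m)) < Q ^ (w / (8 * m)) :=
      Real.rpow_lt_rpow (by positivity) hQ2 he
    rwa [← Real.rpow_mul (by positivity), show (8 * (m : ℝ) / w) * (w / (8 * m)) = 1 by
      field_simp, Real.rpow_one] at h1
  set z : ℝ := Q ^ (1 / (4 * (m : ℝ))) with hz
  have hzbig : 4 * C < z := by
    refine hbig.trans_le (Real.rpow_le_rpow_of_exponent_le hQge1 ?_)
    rw [div_le_div_iff₀ (by positivity) (by positivity)]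
    nlinarith
  have hz4 : z ^ (4 * m) ≤ Q := by
    rw [hz, ← Real.rpow_natCast, ← Real.rpow_mul hQ0.le]
    push_cast
    rw [show 1 / (4 * (m : ℝ)) * (4 * (m : ℝ)) = 1 by field_simp, Real.rpow_one]
  have hz0 : 0 < z := by positivity
  set S : Finset ℕ := (Finset.range (⌊z⌋₊ + 1)).filter Nat.Prime with hS
  have hSp : ∀ p ∈ S, p.Prime := fun p hp => (Finset.mem_filter.1 hp).2
  have hfl : z / 2 ≤ (⌊z⌋₊ : ℝ) := by
    have := Nat.lt_floor_add_one z
    linarith
  have hfl1 : 1 ≤ ⌊z⌋₊ := Nat.le_floor (by push_cast; linarith)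
  have hflp : (0 : ℝ) < (⌊z⌋₊ : ℝ) := by exact_mod_cast hfl1
  set R : ℂ → ℂ := fun s => (∏ p ∈ S, qv m (q p) ((p : ℂ) ^ (-s))) * L s with hR
  have hRd : Differentiable ℂ R := (pr_diff m q S hSp).mul hL
  -- far to the right
  have hfar : ∀ s : ℂ, (m : ℝ) + 4 ≤ s.re → ‖R s - 1‖ ≤ C / ⌊z⌋₊ := by
    intro s hs
    have h1 := hEPR m lam q s S hE hSp (summ hlam hs)
    rw [(hLs s (by linarith)).tsum_eq] at h1
    have h2 := hTA lam hE.one hlam ⌊z⌋₊ hfl1 s hs
    rw [hR]
    simp only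
    rw [h1]
    exact h2
  have hM1 : C / ⌊z⌋₊ ≤ 2 * C / z := by
    rw [div_le_div_iff₀ hflp hz0]
    nlinarith
  have hM1' : 2 * C / z < 1 / 2 := by
    rw [div_lt_div_iff₀ hz0 (by norm_num)]
    linarith
  have hne : R s ≠ 0 := by
    intro h0
    rcases le_or_gt s.re ((m : ℝ) + 5) with hre | hre
    · have hQce : 1 ≤ Q ^ (c + η) := Real.one_le_rpow hQge1 (by positivity)
      have h3 := hHT (fun s => R s - 1) ((m : ℂ) + 5 + t * Complex.I) (C / ⌊z⌋₊)
        (2 * Q ^ (c + η)) (hRd.sub_const 1) (by positivity) (by linarith) ?_ ?_ s ?_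
      · rw [h0] at h3
        simp only [zero_sub, norm_neg, norm_one] at h3
        have h4 : (C / ⌊z⌋₊ : ℝ) ^ w ≤ (2 * C / z) ^ w :=
          Real.rpow_le_rpow (by positivity) hM1 hw0.le
        have h5 : (2 * C / z) ^ w ≤ 2 * C * Q ^ (-(w / (4 * m))) := by
          rw [Real.div_rpow (by positivity) hz0.le, div_eq_mul_inv]
          refine mul_le_mul ?_ (le_of_eq ?_) (by positivity) (by positivity)
          · calc (2 * C) ^ w ≤ (2 * C) ^ (1 : ℝ) :=
                  Real.rpow_le_rpow_of_exponent_le (by linarith) hw1.le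
              _ = 2 * C := Real.rpow_one _
          · rw [hz, ← Real.rpow_mul hQ0.le, ← Real.rpow_neg hQ0.le]
            congr 1
            ring
        have h6 : (2 * Q ^ (c + η)) ^ (1 - w) ≤ 2 * Q ^ (c + η) := by
          calc (2 * Q ^ (c + η)) ^ (1 - w) ≤ (2 * Q ^ (c + η)) ^ (1 : ℝ) :=
                Real.rpow_le_rpow_of_exponent_le (by linarith) (by linarith)
            _ = _ := Real.rpow_one _
        have h7 : (1 : ℝ) ≤ (2 * C * Q ^ (-(w / (4 * m)))) * (2 * Q ^ (c + η)) :=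
          h3.trans (mul_le_mul (h4.trans h5) h6 (by positivity) (by positivity))
        have h8 : (2 * C * Q ^ (-(w / (4 * m)))) * (2 * Q ^ (c + η)) =
            4 * C * Q ^ (-(w / (4 * m)) + (c + η)) := by
          have h := Real.rpow_add hQ0 (-(w / (4 * (m : ℝ)))) (c + η)
          rw [h]
          generalize Q ^ (-(w / (4 * (m : ℝ)))) = a
          generalize Q ^ (c + η) = b
          ring
        have h9 : Q ^ (-(w / (4 * m)) + (c + η)) ≤ Q ^ (-(w / (8 * m))) := by
          refine Real.rpow_le_rpow_of_exponent_le hQge1 ?_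
          have hc2 : c ≤ η := min_le_right _ _
          have e1 : w / (4 * (m : ℝ)) = 8 * η := by rw [hηd]; field_simp; norm_num
          have e2 : w / (8 * (m : ℝ)) = 4 * η := by rw [hηd]; field_simp; norm_num
          rw [e1, e2]
          linarith
        rw [h8] at h7
        have h10 : 4 * C * Q ^ (-(w / (8 * (m : ℝ)))) < 1 := by
          rw [Real.rpow_neg hQ0.le, ← div_eq_mul_inv, div_lt_one (by positivity)]
          exact hbig
        have h11 : 4 * C * Q ^ (-(w / (4 * (m : ℝ))) + (c + η)) ≤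
            4 * C * Q ^ (-(w / (8 * (m : ℝ)))) := mul_le_mul_of_nonneg_left h9 (by positivity)
        linarith
      · intro u hu
        refine hfar u ?_
        have h1 : |(u - ((m : ℂ) + 5 + t * Complex.I)).re| ≤ 1 :=
          (Complex.abs_re_le_norm _).trans hu
        simp at h1
        have := (abs_le.1 h1).1
        linarith
      · intro u hu
        have h1 : |(u - ((m : ℂ) + 5 + t * Complex.I)).re| ≤ (m : ℝ) + 5 - 1 / 2 - d / 2 :=
          (Complex.abs_re_le_norm _).trans hu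
        have h2 : |(u - ((m : ℂ) + 5 + t * Complex.I)).im| ≤ (m : ℝ) + 5 - 1 / 2 - d / 2 :=
          (Complex.abs_im_le_norm _).trans hu
        simp at h1 h2
        have h3 := abs_le.1 h1
        have hu1 : 1 / 2 + d / 2 ≤ u.re := by linarith [h3.1]
        have hy := hyp u hu1 (by linarith [h3.2]) (by linarith)
        have hP := hPR lam q Q hQ1' hE hlam
          (sq_mono (Real.rpow_le_rpow_of_exponent_le hQge1 (by linarith [min_le_left c1 η])) hSq)
          z hz4 u hu1
          (dp_mono (Real.rpow_le_rpow_of_exponent_le hQge1 (min_le_left c1 η)) hy.2)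
        have hRu : ‖R u‖ ≤ Q ^ η * Q ^ c := by
          rw [hR]
          simp only [norm_mul]
          exact mul_le_mul hP hy.1 (norm_nonneg _) (by positivity)
        calc ‖R u - 1‖ ≤ ‖R u‖ + ‖(1 : ℂ)‖ := norm_sub_le _ _
          _ ≤ Q ^ η * Q ^ c + 1 := by simpa using hRu
          _ = Q ^ (c + η) + 1 := by rw [← Real.rpow_add hQ0, add_comm η c]
          _ ≤ 2 * Q ^ (c + η) := by linarith
      · have h1 : s - ((m : ℂ) + 5 + t * Complex.I) = ((s.re - (m + 5) : ℝ) : ℂ) := by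
          apply Complex.ext
          · simp
          · simp [hst]
        rw [h1, Complex.norm_real, Real.norm_eq_abs, abs_of_nonpos (by linarith)]
        linarith
    · have h1 := hfar s (by linarith)
      rw [h0] at h1
      simp only [zero_sub, norm_neg, norm_one] at h1
      linarith
  intro hL0
  exact hne (by rw [hR]; simp only [hL0, mul_zero])

end Pool.Agent.H86.ZF
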